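import Pool.Agent.H73.D2.Tnn
import Pool.Agent.H73.D2.Tno
import Pool.Agent.H92.STE.Se2

/-!
# The static end from the labels of the tubes of `u`

`StL.xi`, `StL.mono`: a weaker property, larger numbers. `x10s_fh`: the label of the target at one
scale from the slope hypothesis, the labels of the tubes of `u`, the time line and the velocity.
-/

set_option autoImplicit false

namespace Pool.V1E

open Finset Real MvPolynomial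
open Pool.Agent.H49.Ent Pool.Agent.H32.Dense Pool.STK Pool.KA Pool.KSAT Pool.K2S Pool.PB Pool.S6C
open Pool.GEN Pool.CHT Pool.CHX Pool.ISO Pool.D2R Pool.D2G30 Pool.END18 Pool.D2Con
open Pool.LBT (ThrOf)
open Pool.LEV (Law)
open Pool.NHN (NhNN nhNU_cls)

/-- A weaker property of the windows. -/
theorem StL.xi {m : ℕ} {S : PCl m} {c : ℕ → Fin m} {r D : ℕ} {a v e gu p K : ℝ} {Ξ Ξ' : XiN m}
    (h : StL S c r D a v e gu p K Ξ)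
    (hX : ∀ J F B g₀ G H Ht CL Cp, Ξ J F B g₀ G H Ht CL Cp → Ξ' J F B g₀ G H Ht CL Cp) :
    StL S c r D a v e gu p K Ξ' := by
  refine Bas.mono 0 h ?_
  rintro J - F A ⟨B, B₁, g₀, G, H, Ht, CL, Cp, g, T, TH, Gc, Hc, P, h1, h2, h3, h4, h5⟩
  exact ⟨B, B₁, g₀, G, H, Ht, CL, Cp, g, T, TH, Gc, Hc, P, h1, h2, h3, hX _ _ _ _ _ _ _ _ _ h4,
    h5⟩

/-- Larger numbers. -/
theorem StL.mono {m : ℕ} {S : PCl m} {c : ℕ → Fin m} {r D D' : ℕ}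
    {a a' v e e' gu gu' p p' K K' : ℝ} {Ξ : XiN m} (h : StL S c r D a v e gu p K Ξ)
    (hD : D ≤ D') (ha : a ≤ a') (he : e ≤ e') (hg : gu ≤ gu') (hp : p' ≤ p) (hK : K ≤ K') :
    StL S c r D' a' v e' gu' p' K' Ξ := by
  refine Bas.mono 0 h ?_
  rintro J - F A ⟨B, B₁, g₀, G, H, Ht, CL, Cp, g, T, TH, Gc, Hc, P, h1, h2, h3, h4, h5, h6, h7, h8,
    h9, h10⟩
  have hJ : (0 : ℝ) ≤ J := Nat.cast_nonneg J
  have mulJ : ∀ {x y : ℝ}, x ≤ y → x * J ≤ y * J := fun h => mul_le_mul_of_nonneg_right h hJ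
  have hra : ⌊a * J⌋₊ ≤ ⌊a' * J⌋₊ := Nat.floor_le_floor (mulJ ha)
  refine ⟨B, B₁, g₀, G, H, Ht, CL, Cp, g, T, TH, Gc, Hc, P, h1, h2,
    h3.trans (mul_le_mul_of_nonneg_right hK (Pe_nonneg F.isLaw B₁)), h4, h5,
    h6.mono le_rfl (fun _ => hD) hra (Nat.floor_le_floor (mulJ he)), ?_, (mulJ hp).trans h8,
    h9.trans (mulJ hg), h10⟩
  have h11 := h7.rad hra
  exact ⟨fun y => (h11.degP y).trans hD, fun s => (h11.degR s).trans hD, h11.depP, h11.depR,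
    h11.pos, h11.agr⟩

/-- **The static end at one scale** for the target `N - P(p, u)`, from the slope hypothesis, the labels of
the tubes of `u`, the time line and the velocity. -/
theorem x10s_fh (m r S₂ CM : ℕ) (hr : 1 ≤ r) (hS₂ : 1 ≤ S₂) (su s : ℝ) (hsu : 1 ≤ su)
    (hs : 1 < s) :
    ∃ D : ℕ, 1 ≤ D ∧ ∀ Dr : ℕ, D ≤ Dr → ∃ C : ℝ, 1 ≤ C ∧ ∀ Dw : ℕ, D ≤ Dw →
    ∀ del : ℝ, 0 < del → ∃ δ C' : ℝ, 0 < δ ∧ δ ≤ 1 ∧ 1 ≤ C' ∧ ∃ X₀ : ℝ, 0 < X₀ ∧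
    ∀ h X : ℝ, 0 < h → 10 * (C * h) < X → X ≤ X₀ →
    ∀ {S : PCl m} {P P₂ : List (Fin m) × Fin m → ℝ → ℝ → ℝ} {θ θ₂ : ℝ} {c : ℕ → Fin m}
    {Pt : ℝ → ℝ → ℝ} {R : ℕ → Prop} {N₁ N₂ d Du : ℕ} {vw : ℕ → ℝ}
    {y A k₁ K Eb e₂ ε q t kk κ κ₀ κ₁ K₂ K₃ K₄ a₂ es gu p₀ : ℝ} {Ξ : XiN m} {qf : ℕ → Fin r → ℕ}
    {nt : ℕ → ℝ} {P₁ P₃ : Fin r → ℝ} {oo : ℝ} {fr : ℕ → ℝ} {hT κT : ℝ}
    {aq : ℚ} {e₃ h₃ gn : ℝ},
    RecNy S P P₂ θ θ₂ c r Pt R S₂ N₁ N₂ vw su s y A k₁ K Eb e₂ ε q t → 3 * C * ε < h →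
    (∀ (J : ℕ) (i : Fin r), ⌊s * q * J⌋₊ + (⌊(t + q) * J⌋₊ - ⌊t * J⌋₊) ≤ qf J i) →
    0 < κ₀ → 0 < K₃ → 0 < K₄ → κ₀ * K₄ ≤ κ₁ → κ₁ * K₃ ≤ κ → 0 < K₂ → d ≤ N₂ → Du ≤ Dw →
    HuU S c r D Du Dr N₁ N₂ R C (t + A * q) Eb (3 * ε * q) (h * q) (X * q) Pt
      (fun k => t + vG y k₁ vw k * q)
      (fun k l => lvN P c (r + 1) Pt l (t + vG y k₁ vw k * q) (t + vG y k₁ vw k * q))
      (fun k l => bet P c l (t + A * q) (t + vG y k₁ vw k * q)) κ₀ K₄ →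
    SlHU S c r D Dw Dr N₁ N₂ R C (t + A * q) Eb (3 * ε * q) (h * q) (X * q) (s * q) Pt
      (fun k => t + vG y k₁ vw k * q)
      (fun k l => lvN P c (r + 1) Pt l (t + vG y k₁ vw k * q) (t + vG y k₁ vw k * q))
      (fun k l => bet P c l (t + A * q) (t + vG y k₁ vw k * q)) κ₁ K₃ Ξ →
    VfNU S c r D Dw Dr N₁ N₂ R C (t + A * q) Eb (3 * ε * q) (h * q) (X * q) (s * q) kk
      Pt (fun k => t + vG y k₁ vw k * q)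
      (fun k l => lvN P c (r + 1) Pt l (t + vG y k₁ vw k * q) (t + vG y k₁ vw k * q))
      (fun k l => bet P c l (t + A * q) (t + vG y k₁ vw k * q)) κ qf δ K₂ Ξ →
    TlW S c r nt P₁ P₃ (t + vG y k₁ vw 2 * q) (t + vG y k₁ vw 0 * q) (t + vG y k₁ vw 3 * q) oo fr
      hT κT →
    HnN r CM Eb (h * q) (X * q) (s * q) kk (h * q) δ C' (fun k => t + vG y k₁ vw k * q)
      (fun k l => lvN P c (r + 1) Pt l (t + vG y k₁ vw k * q) (t + vG y k₁ vw k * q)) qf nt P₁ P₃ oo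
      fr hT κT →
    NhNN r d P₂ c θ₂ C Eb (h * q) (h * q) (X * q) δ C' (fun k => t + vG y k₁ vw k * q)
      (fun k l => lvN P c (r + 1) Pt l (t + vG y k₁ vw k * q) (t + vG y k₁ vw k * q)) aq e₃ h₃ gn →
    t + q < a₂ → Eb + 2 * (s * q) + q ≤ es → lvN P c (r + 1) Pt r t t + del * q ≤ gu →
    p₀ + del * q ≤ Pt t t + s * q →
    ∃ K₅ : ℝ, 0 ≤ K₅ ∧ StL S c r (dSt r Dw) a₂ t es gu p₀ K₅ Ξ := by
  obtain ⟨D, hD, hx⟩ := x10s_fy m r S₂ CM hr hS₂ su s hsu hs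
  refine ⟨D, hD, fun Dr hDr => ?_⟩
  obtain ⟨C, hC, hx⟩ := hx Dr hDr
  refine ⟨C, hC, fun Dw hDw del hdel => ?_⟩
  obtain ⟨CT, hcl⟩ := recNy_slhU Dw r
  obtain ⟨δ, C', hδ, hδ1, hC', X₀, hX₀, hx⟩ := hx Dw CT hDw del hdel
  refine ⟨δ, C', hδ, hδ1, hC', min X₀ (1 / 4), lt_min hX₀ (by norm_num), ?_⟩
  intro h X hh hhX hX S P P₂ θ θ₂ c Pt R N₁ N₂ d Du vw y A k₁ K Eb e₂ ε q t kk κ κ₀ κ₁ K₂ K₃ K₄ a₂
    es gu p₀ Ξ qf nt P₁ P₃ oo fr hT κT aq e₃ h₃ gn Rc hε hqf hκ₀ hK₃ hK₄ hκ₀₁ hκκ hK₂ hd hDu hU hSl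
    hVf hTl Hn Nh ha₂ hes hgu hp₀
  have hκ₁ : 0 < κ₁ := (mul_pos hκ₀ hK₄).trans_le hκ₀₁
  have hSl' := hcl Rc hsu hs hC hh hε hhX (hX.trans (min_le_right _ _)) hDw hDu hK₄ hκ₁.le hκ₀₁ hU
    hSl
  obtain ⟨K₅, hK₅, h5⟩ := hx h X hh hhX (hX.trans (min_le_left _ _))
    (fun J F B g₀ G H Ht CL Cp h => h.2) Rc hε hqf hκ₀ (mul_pos hK₄ hK₃) (κ := κ) (by
      rw [← mul_assoc]
      exact (mul_le_mul_of_nonneg_right hκ₀₁ hK₃.le).trans hκκ) hK₂ hd hSl'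
    (hVf.xi fun J F B g₀ G H Ht CL Cp h => h.1) hTl Hn Nh ha₂ hes hgu hp₀
  exact ⟨K₅, hK₅, h5.xi fun J F B g₀ G H Ht CL Cp h => h.1⟩

end Pool.V1E
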