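import Pool.Agent.H73.D2.Tnr
import Pool.Agent.H92.STE.Se5

/-!
# Void windows from the static end, any closed gradient

`SvSC`: the slope hypothesis, a closed gradient and the dead velocity, and the label of the target
contradicts the record. `voidZ_sc`: the class theorem, the target steep or static.
-/

set_option autoImplicit false

namespace Pool.PKG

open Finset Real
open Pool.Agent.H49.Ent Pool.Agent.H32.Dense Pool.STK Pool.KA Pool.KSAT Pool.K2S Pool.PB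
open Pool.GEN Pool.S6C Pool.STAT Pool.CHT Pool.GRW Pool.ONE Pool.STA
open Pool.LBT (LSys ThrOf)
open Pool.LEV (Law)
open Pool.ALL (RateOf)
open Pool.ISO (PtD lvN WinD)
open Pool.V1E (vF vG vG_ge vG_vF TlW HnN SlHU VfNU XiN XiCl StL dSt x10s_fy)
open Pool.LA91 (TlAt epT slT FaQ sumQ)

/-- **The slope hypothesis, a closed gradient and the dead velocity**, and the label of the static
end contradicts the record, under the hypothesis `Z lam` on
the class, of the target `N - P(p, u)`, `N` at the place `r + 1`, `u` at the place `r`, at all scales of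
the record, in a subclass with the same record. `CT`: the loss of the closed gradient. The deep window is `t + y q`, the radius of the rows `t + a q`. `Ar`, `Vr`: pairs, `Vv`: windows of the
chain, `vs`: windows of balls of the end, `Q`: the property of the windows; `Dw`: the degree of `P`,
`X q`: the precision of the slopes, `hh q`: the precision of the charts, `k₁ q`: the distance of the
frame, `kf q`: the precision of the positions. -/
def SvSC (m r : ℕ) (y a h : ℝ) (Sl : ℕ → ℝ) (κ : ℕ → Kg) {ι Λ : Type} (Q : PropG m ι)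
    (Z : PropZ m Λ) : Prop :=
  ∀ al : ℝ, 0 < al → ∀ K₀ : ℝ, 0 < K₀ → ∀ S₀ : ℕ, 1 ≤ S₀ →
  ∃ ar del : ℝ, 1 < ar ∧ 0 < del ∧
  ∃ (Kr : ℝ) (Nr : ℕ) (Ar Vr : ℕ → ℝ), 1 ≤ Kr ∧ (∀ k < Nr, -Kr ≤ Vr k ∧ Vr k ≤ Ar k ∧ Ar k ≤ Kr) ∧
  ∀ S₂ : ℕ, S₀ ≤ S₂ → ∀ D : ℕ, 1 ≤ D → ∃ Dr : ℕ, D ≤ Dr ∧ ∀ C : ℝ, 1 ≤ C →
  ∃ Dw CT : ℕ, D ≤ Dw ∧
  ∀ δ X₀ : ℝ, 0 < δ → δ ≤ 1 → 0 < X₀ →
  ∃ (lam : Λ) (kf X h₁ : ℝ), Sl (r + 1) ≤ kf ∧ 0 < X ∧ X ≤ X₀ ∧ 0 < h₁ ∧ ∀ hh k₁ : ℝ, 0 < hh → hh ≤ h₁ →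
  kf + 8 ≤ k₁ → a + 1 ≤ k₁ →
  ∃ (K₁ : ℝ) (Nv : ℕ) (Vv : ℕ → ℝ) (ns : ℕ) (vs : ℕ → ℝ), (∀ j < Nv, -K₁ ≤ Vv j ∧ Vv j ≤ K₁) ∧
  (∀ j < ns, -K₁ ≤ vs j ∧ vs j ≤ a - 1 / 2) ∧ ∀ K' : ℝ, K₁ ≤ K' →
  ∃ ε₀ : ℝ, 0 < ε₀ ∧ ∀ ε : ℝ, 0 < ε → ε ≤ ε₀ →
  ∀ (S : PCl m) (g₀ : ℝ → ℝ) (P : List (Fin m) × Fin m → ℝ → ℝ → ℝ)
    (θ : ℝ) (P₂ : ℕ → List (Fin m) × Fin m → ℝ → ℝ → ℝ) (θ₂ Eb e₂ : ℕ → ℝ) (c : ℕ → Fin m)
    (Pt : ℝ → ℝ → ℝ) (rt : ℝ → ℝ) (L T : ℕ → ℝ → ℝ → ℝ) (G : Set ℝ) (g : ℝ),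
    IsClosed G → g ∈ G → (∀ l < m, HasDerivAt (fun x => L l x x) (Sl l) g) →
    Z lam S P θ c Pt rt L T κ G g →
    ∃ (p : ℕ → ι) (M : ℕ) (B₀ B₁ : ℕ → ℝ),
    (∀ j < M, B₀ j < B₁ j) ∧ ∀ k₀ : ℕ → ℕ, (∀ j < M, Q (p j) (k₀ j) S P θ c Pt rt L T κ G g) →
    ∃ q₁ : ℝ, 0 < q₁ ∧ ∀ (q t : ℝ) (x : ℕ → ℝ),
      q < q₁ → (∀ j < M, x j ∈ G ∧ t + B₀ j * q ≤ x j ∧ x j ≤ t + B₁ j * q ∧
        Q (p j) (k₀ j) S P θ c Pt rt L T κ G (x j)) →
      ∀ (N : ℕ) (A V : ℕ → ℝ) (N' : ℕ) (V' : ℕ → ℝ),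
      RecG S al g₀ P θ P₂ θ₂ Eb e₂ c Pt rt h K₀ g L T Sl κ G S₀ N A V S₂ N' V' K' ε q t →
      (∀ k < Nr, ∃ j < N, A j = Ar k ∧ V j = Vr k) → (∀ k < Nv, ∃ j < N', V' j = Vv k) →
      ∀ (N₁ N₂ : ℕ) (vw : ℕ → ℝ), 1 ≤ N₁ → N₁ ≤ N₂ → 3 ≤ N₂ →
      (∀ k < ns, ∃ j, N₁ < j ∧ 4 ≤ j ∧ j ≤ N₂ ∧ vw j = vs k) →
      ∃ (S' : PCl m) (Ξ : XiN m),
      (∀ (τ : ℝ) (J : ℕ) (F : Fam m J) (A : F.Ω → Prop), S'.St τ J F A → S.St τ J F A) ∧
      RecG S' al g₀ P θ P₂ θ₂ Eb e₂ c Pt rt h K₀ g L T Sl κ G S₀ N A V S₂ N' V' K' ε q t ∧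
      (∀ J F B g₀ G H Ht CL Cp, Ξ J F B g₀ G H Ht CL Cp →
        XiCl c r Dw CT (X * q) (Sl (r + 1) * q) (fun k => t + vG y k₁ vw k * q)
          (fun k l => lvN P c (r + 1) (L (r + 1)) l (t + vG y k₁ vw k * q) (t + vG y k₁ vw k * q))
          J F B g₀ G H Ht CL Cp) ∧
      (∃ κ₁ K₃ : ℝ, 0 < κ₁ ∧ 0 < K₃ ∧
        SlHU S' c r D Dw Dr N₁ N₂ (fun l => κ l = .one ∨ κ l = .thin) C (t + a * q)
          (Eb (r + 1)) (3 * ε * q) (hh * q) (X * q) (Sl (r + 1) * q) (L (r + 1))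
          (fun k => t + vG y k₁ vw k * q)
          (fun k l => lvN P c (r + 1) (L (r + 1)) l (t + vG y k₁ vw k * q) (t + vG y k₁ vw k * q))
          (fun k l => bet P c l (t + a * q) (t + vG y k₁ vw k * q)) κ₁ K₃ Ξ) ∧
      (∀ (κ' : ℝ) (qf : ℕ → Fin r → ℕ) (Pq : Fin r → ℝ), 0 < κ' → κ' ≤ 1 →
        (∀ i, (kf + 1) * q ≤ Pq i) → (∀ (J : ℕ) (i : Fin r), Pq i * J - 2 ≤ qf J i) →
        ∃ K₂ : ℝ, 0 < K₂ ∧
        VfNU S' c r D Dw Dr N₁ N₂ (fun l => κ l = .one ∨ κ l = .thin) C (t + a * q)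
          (Eb (r + 1)) (3 * ε * q) (hh * q) (X * q) (Sl (r + 1) * q) (kf * q) (L (r + 1))
          (fun k => t + vG y k₁ vw k * q)
          (fun k l => lvN P c (r + 1) (L (r + 1)) l (t + vG y k₁ vw k * q) (t + vG y k₁ vw k * q))
          (fun k l => bet P c l (t + a * q) (t + vG y k₁ vw k * q)) κ' qf δ K₂ Ξ) ∧
      ∀ K₅ : ℝ, 0 ≤ K₅ → ¬ StR S' c r Dw Sl L Eb ar del q t K₅ Ξ

/-- **The class theorem of void windows**, the target `N` steep or static over coordinates of slope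
one and one more coordinate `u`, from the slope hypothesis, a closed gradient, the velocity and the
static end. -/
theorem voidZ_sc {m r : ℕ} (hr : 1 ≤ r) (hrm : r + 1 < m) {h : ℝ} {Sl : ℕ → ℝ} {κ : ℕ → Kg}
    (hκ : ∀ l < r, κ l = .one) (hκu : κ r ≠ .any) (hκt : κ (r + 1) = .stp ∨ κ (r + 1) = .sta)
    (hsu : 1 ≤ Sl r)
    (hs : 1 < Sl (r + 1)) {y a : ℝ} (hy : 3 / 2 ≤ y) (hya : y + 1 / 2 ≤ a)
    (hsa : Sl (r + 1) + 1 ≤ a) {ι Λ : Type} {Q : PropG m ι}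
    {Z : PropZ m Λ} (hV : SvSC m r y a h Sl κ Q Z) :
    VoidZ m h Sl κ (sumQ Q FaQ) Z := by
  intro al hal K₀ hK₀ S₀ hS₀
  obtain ⟨ar, del, har, hdel, Kr, Nr, Ar, Vr, hKr, hAV, hV⟩ := hV al hal K₀ hK₀ S₀ hS₀
  obtain ⟨s, hsd⟩ : ∃ s, s = Sl (r + 1) := ⟨_, rfl⟩
  rw [← hsd] at hs hV hsa
  obtain ⟨CM, hCM⟩ := exists_nat_gt s
  have hr0 : (0 : ℝ) ≤ r := Nat.cast_nonneg r
  obtain ⟨A, hA⟩ : ∃ A : ℕ → ℝ, A = fun k => if k < 2 then a else if k = 2 then 1 else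
    Ar (k - 3) := ⟨_, rfl⟩
  obtain ⟨V, hVd⟩ : ∃ V : ℕ → ℝ, V = fun k => if k = 0 then 0 else if k = 1 then y else
    if k = 2 then 0 else Vr (k - 3) := ⟨_, rfl⟩
  have a0 : A 0 = a := by simp [hA]
  have a1 : A 1 = a := by simp [hA]
  have a2 : A 2 = 1 := by simp [hA]
  have a3 : ∀ k, A (3 + k) = Ar k := fun k => by
    simp only [hA]
    rw [if_neg (by omega), if_neg (by omega)]
    congr 1
    omega
  have v0 : V 0 = 0 := by simp [hVd]
  have v1 : V 1 = y := by simp [hVd]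
  have v2 : V 2 = 0 := by simp [hVd]
  have v3 : ∀ k, V (3 + k) = Vr k := fun k => by
    simp only [hVd]
    rw [if_neg (by omega), if_neg (by omega), if_neg (by omega)]
    congr 1
    omega
  refine ⟨max Kr a, 3 + Nr, A, V, le_max_of_le_left hKr, fun k hk => ?_,
    fun S₂ hS₂ => ?_⟩
  · have m1 := le_max_left Kr a
    have m2 := le_max_right Kr a
    rcases Nat.lt_or_ge k 3 with h3 | h3
    · interval_cases k
      · rw [v0, a0]
        exact ⟨by linarith, by linarith, by linarith⟩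
      · rw [v1, a1]
        exact ⟨by linarith, by linarith, by linarith⟩
      · rw [v2, a2]
        exact ⟨by linarith, by linarith, by linarith⟩
    · obtain ⟨j, rfl⟩ : ∃ j, k = 3 + j := ⟨k - 3, by omega⟩
      rw [a3, v3]
      obtain ⟨h4, h5, h6⟩ := hAV j (by omega)
      exact ⟨by linarith, h5, by linarith⟩
  obtain ⟨D, hD, hx⟩ := x10s_fy m r S₂ CM hr (hS₀.trans hS₂) (Sl r) s hsu hs
  obtain ⟨Dr, hDr, hV⟩ := hV S₂ hS₂ D hD
  obtain ⟨C, hC, hx⟩ := hx Dr hDr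
  obtain ⟨Dw, CT₀, hDw, hV⟩ := hV C hC
  obtain ⟨δ, C', hδ, hδ1, hC', X₀, hX₀, hx⟩ := hx Dw CT₀ hDw del hdel
  have hC0 : 0 < C := by linarith
  have hC'0 : 0 < C' := by linarith
  obtain ⟨lam, kf, X, h₁, hkf, hX0, hXX, hh₁, hV⟩ := hV δ (min X₀ (δ / (4 * C'))) hδ hδ1
    (lt_min hX₀ (by positivity))
  have hX1 : X ≤ X₀ := hXX.trans (min_le_left _ _)
  have hX2 : 4 * C' * X ≤ δ := by
    have := hXX.trans (min_le_right _ _)
    rw [le_div_iff₀ (by positivity)] at this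
    linarith
  obtain ⟨CT, hCT⟩ := exists_nat_ge (2 * kf + 7 * r + 18 + a)
  have hCT0 : (0 : ℝ) ≤ CT := Nat.cast_nonneg CT
  obtain ⟨k₁, hk₁⟩ : ∃ k₁ : ℝ, k₁ = CT + 7 * r + 13 := ⟨_, rfl⟩
  obtain ⟨κT, hκT0, hκTδ⟩ : ∃ x : ℚ, (0 : ℝ) < x ∧ (x : ℝ) < δ := exists_rat_btwn hδ
  have hep : 0 < epT r 1 κT := by
    unfold epT
    push_cast
    positivity
  have hsl : 0 < slT r 1 κT := by
    unfold slT epT
    push_cast
    positivity
  obtain ⟨ρ, hρ⟩ : ∃ ρ : ℝ, ρ = min (1 / 2) (δ / (4 * C')) := ⟨_, rfl⟩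
  have hρ0 : 0 < ρ := by rw [hρ]; positivity
  have hρ1 : ρ ≤ 1 / 2 := by rw [hρ]; exact min_le_left _ _
  have hρ2 : 4 * C' * ρ ≤ δ := by
    have : ρ ≤ δ / (4 * C') := by rw [hρ]; exact min_le_right _ _
    rw [le_div_iff₀ (by positivity)] at this
    linarith
  obtain ⟨v₀, hv₀⟩ : ∃ v₀ : ℝ, v₀ = min (X / (20 * C)) (min h₁ (min (1 / 2) (min (slT r 1 κT / 2)
      (min (ρ / (2 * (C + 2))) (δ / (12 * C')))))) := ⟨_, rfl⟩
  have hv0 : 0 < v₀ := by rw [hv₀]; positivity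
  have hvm : v₀ ≤ X / (20 * C) ∧ v₀ ≤ h₁ ∧ v₀ ≤ 1 / 2 ∧ v₀ ≤ slT r 1 κT / 2 ∧
      v₀ ≤ ρ / (2 * (C + 2)) ∧ v₀ ≤ δ / (12 * C') := by
    rw [hv₀]
    exact ⟨min_le_left _ _, (min_le_right _ _).trans (min_le_left _ _),
      (min_le_right _ _).trans ((min_le_right _ _).trans (min_le_left _ _)),
      (min_le_right _ _).trans ((min_le_right _ _).trans ((min_le_right _ _).trans
        (min_le_left _ _))),
      (min_le_right _ _).trans ((min_le_right _ _).trans ((min_le_right _ _).trans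
        ((min_le_right _ _).trans (min_le_left _ _)))),
      (min_le_right _ _).trans ((min_le_right _ _).trans ((min_le_right _ _).trans
        ((min_le_right _ _).trans (min_le_right _ _))))⟩
  obtain ⟨hv1, hv2, hv3, hv4, hv5, hv6⟩ := hvm
  rw [le_div_iff₀ (by positivity)] at hv1 hv5 hv6
  obtain ⟨K₁, Nv, Vv, ns, vs, hVv, hvs, hV⟩ := hV v₀ k₁ hv0 hv2 (by linarith) (by linarith)
  obtain ⟨K, hK⟩ : ∃ K : ℝ, K = max (max Kr a) (max K₁ (2 * a + k₁ + kf + 6)) :=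
    ⟨_, rfl⟩
  have hKa : max Kr a ≤ K := by rw [hK]; exact le_max_left _ _
  have hKb : K₁ ≤ K := by rw [hK]; exact (le_max_left _ _).trans (le_max_right _ _)
  have hKc : 2 * a + k₁ + kf + 6 ≤ K := by
    rw [hK]
    exact (le_max_right _ _).trans (le_max_right _ _)
  obtain ⟨ε₀, hε₀, hV⟩ := hV K hKb
  obtain ⟨ε, hε⟩ : ∃ ε : ℝ, ε = min ε₀ (min (v₀ / 2) (min (v₀ / (6 * C)) (epT r 1 κT / 4))) :=
    ⟨_, rfl⟩
  have hεp : 0 < ε := by rw [hε]; positivity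
  have hεm : ε ≤ ε₀ ∧ ε ≤ v₀ / 2 ∧ ε ≤ v₀ / (6 * C) ∧ ε ≤ epT r 1 κT / 4 := by
    rw [hε]
    exact ⟨min_le_left _ _, (min_le_right _ _).trans (min_le_left _ _),
      (min_le_right _ _).trans ((min_le_right _ _).trans (min_le_left _ _)),
      (min_le_right _ _).trans ((min_le_right _ _).trans (min_le_right _ _))⟩
  obtain ⟨hε1, hε2, hε3, hε4⟩ := hεm
  rw [le_div_iff₀ (by positivity)] at hε3
  have hCε : 0 < C * ε := mul_pos hC0 hεp
  -- the windows of the chain: the frame, the ball, the deeper window, the windows of the balls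
  obtain ⟨V', hV'⟩ : ∃ V' : ℕ → ℝ, V' = fun k => if k = 0 then -k₁ else if k = 1 then 1 else
    if k = 2 then 1 + ρ else if k < 3 + ns then vs (k - 3) else Vv (k - (3 + ns)) := ⟨_, rfl⟩
  have w0 : V' 0 = -k₁ := by simp [hV']
  have w1 : V' 1 = 1 := by simp [hV']
  have w2 : V' 2 = 1 + ρ := by simp [hV']
  have w3 : ∀ k < ns, V' (3 + k) = vs k := fun k hk => by
    simp only [hV']
    rw [if_neg (by omega), if_neg (by omega), if_neg (by omega), if_pos (by omega)]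
    congr 1
    omega
  have w4 : ∀ k, V' (3 + ns + k) = Vv k := fun k => by
    simp only [hV']
    rw [if_neg (by omega), if_neg (by omega), if_neg (by omega), if_neg (by omega)]
    congr 1
    omega
  obtain ⟨vw, hvw⟩ : ∃ vw : ℕ → ℝ, vw = fun k => if k = 4 then 1 + ρ else vs (k - 5) := ⟨_, rfl⟩
  have u4 : vw 4 = 1 + ρ := by simp [hvw]
  have u5 : ∀ k, vw (5 + k) = vs k := fun k => by
    simp only [hvw]
    rw [if_neg (by omega)]
    congr 1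
    omega
  refine ⟨lam, K, 3 + ns + Nv, V', hKa, fun k hk => ?_, ε, hεp, ?_⟩
  · rcases Nat.lt_or_ge k 3 with h3 | h3
    · interval_cases k
      · rw [w0]
        constructor <;> linarith
      · rw [w1]
        constructor <;> linarith
      · rw [w2]
        constructor <;> linarith
    · rcases Nat.lt_or_ge k (3 + ns) with h3' | h3'
      · obtain ⟨j, rfl⟩ : ∃ j, k = 3 + j := ⟨k - 3, by omega⟩
        rw [w3 j (by omega)]
        obtain ⟨h4, h5⟩ := hvs j (by omega)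
        exact ⟨by linarith, by linarith⟩
      · obtain ⟨j, rfl⟩ : ∃ j, k = 3 + ns + j := ⟨k - (3 + ns), by omega⟩
        rw [w4]
        obtain ⟨h4, h5⟩ := hVv j (by omega)
        exact ⟨by linarith, by linarith⟩
  intro S g₀ P θ P₂ θ₂ Eb e₂ c Pt rt L T G g hG hg hder hZ
  obtain ⟨p, M, B₀, B₁, hB, hV⟩ := hV ε hεp hε1 S g₀ P θ P₂ θ₂ Eb e₂ c Pt rt L T G g hG hg hder hZ
  refine ⟨fun j => if j < M then Sum.inl (p j) else Sum.inr (r, CT, 1, κT), M + 1,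
    fun j => if j < M then B₀ j else (kf + 1) - CT - (7 * r + 11) / 2,
    fun j => if j < M then B₁ j else -(CT / 2 + 7 * r + 13), fun j hj => ?_, fun k₀ hgk => ?_⟩
  · by_cases h4 : j < M
    · simp only [h4, if_true]
      exact hB j h4
    · simp only [h4, if_false]
      linarith
  obtain ⟨q₁, hq₁, hV⟩ := hV k₀ fun j hj => by
    have h4 := hgk j (by omega)
    simp only [hj, if_true] at h4
    exact h4
  refine ⟨min q₁ ((1 / 2) ^ k₀ M), lt_min hq₁ (by positivity),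
    fun q t x hq hxj R => ?_⟩
  have hq0 := R.q0
  -- the slope hypothesis and the velocity, in a subclass
  obtain ⟨S', Ξ, hSS, R, hXi, hSl, hVf, hend⟩ := hV q t x (hq.trans_le (min_le_left _ _)) (fun j hj => by
      obtain ⟨h4, h5, h6, h7⟩ := hxj j (by omega)
      simp only [hj, if_true] at h5 h6 h7
      exact ⟨h4, h5, h6, h7⟩) _ _ _ _ _ R
    (fun k hk => ⟨3 + k, by omega, a3 k, v3 k⟩) (fun k hk => ⟨3 + ns + k, by omega, w4 k⟩) 1
    (4 + ns) vw le_rfl (by omega) (by omega)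
    (fun k hk => ⟨5 + k, by omega, by omega, by omega, u5 k⟩)
  obtain ⟨k, hk0, hk1, hk2⟩ := Pool.PKG.pow_near hq0 (hq.trans_le (min_le_right _ _))
  -- the time line
  obtain ⟨-, hx1, hx2, hxQ⟩ := hxj M (Nat.lt_succ_self M)
  simp only [lt_irrefl, if_false] at hx1 hx2 hxQ
  have hTl := (hxQ.sub hSS).tl (show r < m by omega) hκ (by norm_num) (by norm_num)
    (by exact_mod_cast hκT0) k hk0
  have hmG : t - k₁ * q ∈ G := by
    have := R.memG.2 0 (by omega)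
    rw [w0] at this
    have e : t + -k₁ * q = t - k₁ * q := by ring
    rwa [e] at this
  obtain ⟨qf, nt, P₁, fr, hT, hqf, hTW, hHn⟩ := R.tl_scale (i := r + 1) (by omega) hrm
    (Nat.le_succ r) hκ (CM := CM)
    (s := s) (C' := C') (δ := δ) (h := v₀) (X := X) (κT := κT) (σ := 1)
    (vw := vw) (x := x M) hmG (by linarith) hkf hCM hC' hδ1 (by norm_num) le_rfl hκT0
    hκTδ hv0.le hX0.le (by nlinarith) (by linarith) hv3 hεp.le (by linarith)
    (by linarith) hk₁ (by linarith) (by linarith) hk1 hk2 (by linarith) (by linarith) hTl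
  have hHf := (hHn (X * q) rfl).cng (o' := fun k => t + vG y k₁ vw k * q)
    (lv' := fun k l => lvN P c (r + 1) (L (r + 1)) l (t + vG y k₁ vw k * q)
      (t + vG y k₁ vw k * q)) (fun k hk => by simp only [vG_vF hk])
    (fun k hk l => by simp only [vG_vF hk])
  rw [← vG_vF (y := y) (k := 2) (by norm_num), ← vG_vF (y := y) (k := 0) (by norm_num),
    ← vG_vF (y := y) (k := 3) (by norm_num)] at hTW
  -- the hyperplanes
  have hCX : 20 * (C * v₀) ≤ X := by linarith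
  have hvC : v₀ ≤ C * v₀ := le_mul_of_one_le_left hv0.le hC
  obtain ⟨aq, hNN⟩ := R.nhNN hrm hκ (j := 2) (d := 4) (by omega) (C := C) (δ := δ) (C' := C')
    (ρ := ρ) (v₀ := v₀) (X := X) (k₁ := k₁) (vw := vw) w2 le_rfl u4 hC hC' hδ hδ1 hv0
    (by linarith) hρ0 hρ1 (by nlinarith) (by nlinarith) hεp.le (by linarith) (by linarith)
    (by linarith)
  replace hNN := hNN.cng (o' := fun k => t + vG y k₁ vw k * q)
    (lv' := fun k l => lvN P c (r + 1) (L (r + 1)) l (t + vG y k₁ vw k * q)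
      (t + vG y k₁ vw k * q)) (by norm_num) (fun k hk => by simp only [vG_vF hk])
    (fun k hk l => by simp only [vG_vF hk])
  -- the record
  have hRf := R.recNz (y := y) (a := a) (k₁ := k₁) (vw := vw) (N₁ := 1) (N₂ := 4 + ns)
    (Rg := fun l => κ l = .one ∨ κ l = .thin) hrm hκ hκu hκt (fun l _ h => h)
    (fun l hl => Or.inl (hκ l hl)) (fun h => h.symm) le_rfl (by omega) (by omega) hy hya (by rw [← hsd]; exact hsa) hS₂
    (fun k hk => by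
      interval_cases k
      · exact ⟨0, by omega, a0, by rw [v0]; simp [vG]⟩
      · exact ⟨1, by omega, a1, by rw [v1]; norm_num [vG]⟩)
    (fun k hk hk' => by
      rcases Nat.lt_or_ge k 5 with h5 | h5
      · interval_cases k
        · exact ⟨0, by omega, by rw [w0]; simp [vG]⟩
        · exact ⟨1, by omega, by rw [w1]; simp [vG]⟩
        · exact ⟨2, by omega, by rw [w2, vG_ge le_rfl, u4]⟩
      · obtain ⟨j, rfl⟩ : ∃ j, k = 5 + j := ⟨k - 5, by omega⟩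
        exact ⟨3 + j, by omega, by rw [w3 j (by omega), vG_ge (by omega), u5]⟩)
    ⟨2, by omega, a2, v2⟩ hεp.le (by linarith)
    (fun k hk hk' => by
      rcases Nat.lt_or_ge k 5 with h5 | h5
      · have : k = 4 := by omega
        rw [this, u4]
        constructor <;> linarith
      · obtain ⟨j, rfl⟩ : ∃ j, k = 5 + j := ⟨k - 5, by omega⟩
        rw [u5]
        obtain ⟨h6, h7⟩ := hvs j (by omega)
        constructor <;> linarith)
    (fun k hk hk' => by omega) (by linarith) (by linarith)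
  rw [← hsd] at hRf
  obtain ⟨κ₁, K₃, hκ₁, hK₃, hSl⟩ := hSl
  obtain ⟨κ₂, hκ₂d⟩ : ∃ κ₂ : ℝ, κ₂ = min κ₁ (1 / K₃) := ⟨_, rfl⟩
  have hκ₂ : 0 < κ₂ := by rw [hκ₂d]; exact lt_min hκ₁ (by positivity)
  have hκ₂1 : κ₂ ≤ κ₁ := by rw [hκ₂d]; exact min_le_left _ _
  have hκ₂3 : κ₂ * K₃ ≤ 1 := by
    have : κ₂ ≤ 1 / K₃ := by rw [hκ₂d]; exact min_le_right _ _
    rwa [le_div_iff₀ hK₃] at this
  obtain ⟨K₂, hK₂, hVf⟩ := hVf (κ₂ * K₃) qf (fun i => P₁ i - nt i) (by positivity) hκ₂3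
    (fun i => by
      have h4 := hHf.P2 i
      have e0 : t + vG y k₁ vw 0 * q = t := by simp [vG]
      have e3 : t + vG y k₁ vw 3 * q = t + q := by simp [vG]
      simp only [e0, e3] at h4
      linarith) (fun J i => by
      have := (abs_le.1 (hHf.qf1 J i)).1
      linarith)
  have hlr : lvN P c (r + 1) (L (r + 1)) r t t = L r t t := by
    rw [← R.lv_at hrm (Nat.le_succ r)]
  have harq := mul_lt_mul_of_pos_right har hq0
  obtain ⟨K₅, hK₅, h5⟩ := hx v₀ X hv0 (by linarith) hX1 hXi hRf (by linarith) hqf hκ₂ hK₃ le_rfl hK₂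
    (by omega) (hSl.kap hκ₂1 hκ₂.le) hVf hTW hHf hNN (a₂ := t + ar * q)
    (es := Eb (r + 1) + (2 * s + 1) * q) (gu := L r t t + del * q)
    (p₀ := L (r + 1) t t + (s - del) * q) (by linarith) (by linarith) (by rw [hlr]) (by linarith)
  refine hend K₅ hK₅ ?_
  unfold StR
  rw [← hsd]
  exact h5

end Pool.PKG
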