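import Pool.Agent.H73.D2.Tmm
import Pool.Agent.H92.STE.Se4

/-!
# The static end with the row label, in a class

`x10t_con`: `StL` from the windows `WN` and the labels of the tubes `HImN`.
-/

set_option autoImplicit false

namespace Pool.V1E

open Finset Real MvPolynomial
open Pool.Agent.H49.Ent Pool.Agent.H32.Dense Pool.STK Pool.KA Pool.KSAT Pool.K2S Pool.PB Pool.S6C
open Pool.GEN Pool.CHT Pool.CHX Pool.ISO Pool.D2R Pool.D2G30 Pool.END18 Pool.D2Con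
open Pool.LBT (ThrOf)
open Pool.LEV (Law)
open Pool.NLB46 (Lab)
open Pool.STB77 (Tgt)

variable {m : ℕ}

/-- **The static end, in a class**, for the target `N - P(p, u)`, with the row label of `N`. -/
theorem x10t_con (r Dw K D' : ℕ) (hr : 1 ≤ r) (hK : 1 ≤ K)
    (hDK : (Dw + 1) * (Dw + 1) * ((Dw + 1) * (Dw + 1) + 1) ^ r ≤ K)
    (hD1 : (Dw + 1) ^ (r + 4) ≤ D') :
    ∀ ε : ℝ, 0 < ε → ε ≤ 1 / 2 → ∃ δ C' : ℝ, 0 < δ ∧ δ ≤ 1 / 4 ∧ 1 ≤ C' ∧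
    ∀ {m : ℕ} {S : PCl m} {c : ℕ → Fin m}
    {Pt : ℝ → ℝ → ℝ} {D Dr N N₂ : ℕ} {R : ℕ → Prop}
    {C a Eb ε₀ η₀ ζ χ mb e₂ κ K₁ K₂ a₂ gu p₀ : ℝ} {o : ℕ → ℝ} {lv be b : ℕ → ℕ → ℝ}
    {Ξ : XiN m} {qf : ℕ → Fin r → ℕ}, 1 ≤ N → 3 ≤ N₂ → D ≤ Dw → TmH S →
    Set.InjOn c (Set.Iio (r + 2)) → (∀ l < r, R l) → 1 ≤ C → 0 < η₀ → 0 ≤ Eb → 0 < o 2 →
    3 * (C * η₀) ≤ Pt a (o 0) → η₀ ≤ lv 0 (r + 1) → 0 ≤ lv 1 (r + 1) →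
    o 1 + 4 * (C * η₀) ≤ a → a ≤ 1 → (¬ R r → lv 1 r + (a - o 1) ≤ be 1 r + ζ) →
    mb + (o 3 - o 0) < o 0 - o 2 → o 3 - o 0 < mb → η₀ ≤ o 1 - o 3 → 0 ≤ ζ →
    C * η₀ + 2 * (ζ + 3 * (C * η₀)) + η₀ < χ →
    (∀ k ≤ 3, ∀ j < r, |lv k j - o k - (lv 0 j - o 0)| ≤ ζ) →
    lv 0 r + (o 3 - o 0) ≤ lv 3 r + ζ → lv 3 r + (o 1 - o 3) ≤ lv 1 r + ζ →
    |lv 3 (r + 1) - lv 0 (r + 1) - mb| ≤ ζ →
    lv 0 (r + 1) + (o 1 - o 0) + (mb - (o 3 - o 0)) ≤ lv 1 (r + 1) + ζ →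
    lv 0 (r + 1) + (a - o 0) + (mb - (o 3 - o 0)) ≤ Pt a (o 0) + ζ →
    C' * χ < δ * (o 3 - o 0) → o 3 < a₂ → Eb + 2 * mb + C' * χ ≤ e₂ →
    o 0 + 2 * (o 3 - o 0) + η₀ ≤ 1 → lv 0 r + C' * χ ≤ gu →
    p₀ + ε * (o 3 - o 0) + C' * χ ≤ lv 0 (r + 1) + mb →
    (∀ (J : ℕ) (i : Fin r), ⌊mb * J⌋₊ + (⌊o 3 * J⌋₊ - ⌊o 0 * J⌋₊) ≤ qf J i) → 0 < κ →
    0 < K₁ → 0 ≤ K₂ →
    WgC S c r D Dw Dr N N₂ R C a Eb ε₀ η₀ χ mb Pt o lv be b κ K₁ Ξ →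
    HImN S c r D Dw Dr K D' N N₂ R C a Eb ε₀ η₀ χ mb Pt o lv be κ qf δ K₂ Ξ →
    StL S c r ((Dw + 1) * (Dw + 1) + r * (K * ((Dw + 1) * (Dw + 1))) + D') a₂ (o 0) e₂ gu p₀
      (2 * (K₁ * K₂)) Ξ := by
  intro ε hε hε2
  obtain ⟨C₀, C₁, δ₀, δ₀0, δ₀ε, Q₀, hend⟩ := nw_end Dw r K D' hr hK hDK hD1 hε
  obtain ⟨D₂, hD₂⟩ : ∃ D₂ : ℕ, D₂ = (Dw + 1) * (Dw + 1) := ⟨_, rfl⟩
  obtain ⟨D₃, hD₃⟩ : ∃ D₃ : ℕ, D₃ = D₂ + r * (K * D₂) + D' := ⟨_, rfl⟩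
  rw [← hD₂, ← hD₃] at hend
  obtain ⟨δ, hδ⟩ : ∃ δ : ℝ, δ = min δ₀ (1 / 4) := ⟨_, rfl⟩
  have δ0 : 0 < δ := by rw [hδ]; exact lt_min δ₀0 (by norm_num)
  have δ4 : δ ≤ 1 / 4 := by rw [hδ]; exact min_le_right _ _
  have δδ₀ : δ ≤ δ₀ := by rw [hδ]; exact min_le_left _ _
  obtain ⟨C', hC'⟩ : ∃ C' : ℝ, C' = 8 * (C₁ + 2 * (K * r) + 4) + 8 := ⟨_, rfl⟩
  have hC₁0 : (0 : ℝ) ≤ C₁ := Nat.cast_nonneg _
  have hKr0 : (0 : ℝ) ≤ K * r := by positivity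
  have hC'1 : 1 ≤ C' := by
    rw [hC']
    linarith
  refine ⟨δ, C', δ0, δ4, hC'1, ?_⟩
  intro m S c Pt D Dr N N₂ R C a Eb ε₀ η₀ ζ χ mb e₂ κ K₁ K₂ a₂ gu p₀ o lv be b Ξ qf hN1 hN
    hDD hS hinj hR hC hη0 hEb ho2 hPt0 hlv0 hlv1 hoa1 ha1 hbe h01 h12 h23 hζ hχ hn hu2 hu3
    h2 h3 hPa hsm h2a hE h1J hru hlab hqf hκ hK₁ hK₂ hWg hIm
  have hCη : η₀ ≤ C * η₀ := le_mul_of_one_le_left hη0.le hC
  have hCη0 : 0 < C * η₀ := by linarith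
  obtain ⟨X, hX⟩ : ∃ X : ℝ, X = χ := ⟨_, rfl⟩
  have hX0 : 0 < X := by rw [hX]; linarith
  have hηX : η₀ ≤ X := by rw [hX]; linarith
  have hζX : ζ ≤ X := by rw [hX]; linarith
  rw [← hX] at hsm hE hlab hru
  have hQ12 : 0 < o 3 - o 0 := by
    by_contra hcon
    push Not at hcon
    have h4 : δ * (o 3 - o 0) ≤ 0 := mul_nonpos_of_nonneg_of_nonpos δ0.le hcon
    have h5 : 0 < C' * X := by positivity
    linarith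
  have hδQ4 : δ * (o 3 - o 0) ≤ (o 3 - o 0) / 4 := by
    have h4 := mul_le_mul_of_nonneg_right δ4 hQ12.le
    linarith
  have hη12 : η₀ ≤ o 3 - o 0 := by
    have h4 : η₀ ≤ C' * X := hηX.trans (le_mul_of_one_le_left hX0.le hC'1)
    linarith
  have h2' := abs_le.1 h2
  have ho0' : ∀ k ≤ 3, 0 < o k := fun k hk => by
    interval_cases k <;> linarith
  have hwin := wn_con (qf := qf) hN1 hN hDD hinj hR hC hη0 hPt0 hlv1 hoa1 ha1 hbe h01 h12 hη12 h23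
    hζ hχ hn hu2 hu3 (by linarith) h3 hPa hqf hWg
  -- the constants
  have hC'X : C' * X = 8 * C₁ * X + 16 * (K * r) * X + 32 * X + 8 * X := by
    rw [hC']
    ring
  have hC'a : 8 * C₁ * X + 16 * (K * r) * X + 32 * X ≤ C' * X := by
    linarith
  have hKrX : 0 ≤ 16 * (K * r) * X := by positivity
  have hC₁X : 0 ≤ 8 * C₁ * X := by positivity
  -- the events
  have hdq : 0 < δ * (o 3 - o 0) / 2 := by positivity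
  obtain ⟨W₀, hW₀⟩ : ∃ W₀ : ℝ, W₀ = 22 * C₁ + 40 * (K * r) + C₀ + Q₀ + 100 := ⟨_, rfl⟩
  have big : ∀ {x y : ℝ}, 0 < x → ∃ J₀ : ℕ, ∀ J : ℕ, J₀ ≤ J → y ≤ x * J := by
    intro x y hx
    refine ⟨⌈y / x⌉₊, fun J hJ => ?_⟩
    have h1 : y / x ≤ J := (Nat.le_ceil _).trans (by exact_mod_cast hJ)
    rw [div_le_iff₀ hx] at h1
    linarith
  obtain ⟨J₂, hJ₂⟩ := big (x := η₀) (y := W₀) hη0
  obtain ⟨J₃, hJ₃⟩ := big (x := (a₂ : ℝ) - o 3) (y := 2) (by linarith)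
  refine Bas.mono (max J₂ J₃) ((hwin.and (bas_big hIm K₁)).and
    (bas_big (tmh_cond hS hdq) (K₁ * K₂))) ?_
  rintro J hJ F A ⟨⟨w1, w2⟩, w3⟩
  have j2 := hJ₂ J ((le_max_left _ _).trans hJ)
  have j3 := hJ₃ J ((le_max_right _ _).trans hJ)
  have hJ0 : (0 : ℝ) ≤ J := Nat.cast_nonneg J
  have mulJ : ∀ {x y : ℝ}, x ≤ y → x * J ≤ y * J := fun h => mul_le_mul_of_nonneg_right h hJ0
  have hC₀0 : (0 : ℝ) ≤ C₀ := Nat.cast_nonneg _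
  have hQ₀0 : (0 : ℝ) ≤ Q₀ := Nat.cast_nonneg _
  have ho0 : ∀ k ≤ 3, 0 ≤ o k * J := fun k hk =>
    mul_nonneg (ho0' k hk).le hJ0
  have fo := fun k hk => flo (ho0 k hk)
  have f0 := fo 2 (by norm_num)
  have f1 := fo 0 (by norm_num)
  have f2 := fo 3 (by norm_num)
  have f3 := fo 1 (by norm_num)
  have l01 : ⌊o 2 * J⌋₊ ≤ ⌊o 0 * J⌋₊ := Nat.floor_le_floor (mulJ (by linarith))
  have l12 : ⌊o 0 * J⌋₊ ≤ ⌊o 3 * J⌋₊ := Nat.floor_le_floor (mulJ (by linarith))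
  obtain ⟨B, z, gc, gT, g₀, G, H, T, TH, Gt, Ht, CL, Cp, hB, hPB, W, hΞ⟩ := w1
  obtain ⟨B₂, V, V', v, v', ξ, np, Pn, hB₂, hPB₂, him⟩ := w2 B hB hPB b z gc gT g₀ G H T TH Gt Ht
    CL Cp W hΞ
  have hB₂A : Sub B₂ A := fun ω hω => hB ω (hB₂ ω hω)
  have hPA : Pe F.p A ≤ K₁ * K₂ * Pe F.p B₂ := by
    rw [mul_assoc]
    exact hPB.trans (mul_le_mul_of_nonneg_left hPB₂ hK₁.le)
  obtain ⟨hP0, htf⟩ := w3 B₂ hB₂A hPA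
  have Wd' := (W.nwe (by linarith) (by linarith)).sub hB₂
  obtain ⟨Q, hQ⟩ : ∃ Q : ℕ, Q = ⌊o 3 * J⌋₊ - ⌊o 0 * J⌋₊ := ⟨_, rfl⟩
  obtain ⟨x, hx⟩ : ∃ x : ℕ, x = ⌊χ * J⌋₊ := ⟨_, rfl⟩
  obtain ⟨e, he⟩ : ∃ e : ℕ, e = ⌊(Eb + 2 * η₀) * J⌋₊ := ⟨_, rfl⟩
  obtain ⟨MB, hMB⟩ : ∃ MB : ℕ, MB = ⌊mb * J⌋₊ := ⟨_, rfl⟩
  obtain ⟨sr, hsr⟩ : ∃ sr : ℕ, sr = ⌊lv 0 (r + 1) * J⌋₊ := ⟨_, rfl⟩
  have hsre : sN (lv 0) J r r = sr := by rw [sN_r, hsr]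
  rw [← hQ, ← hx, ← he, ← hMB] at Wd'
  rw [← hQ, ← hMB, ← hD₂] at him
  have hQr : (Q : ℝ) = ⌊o 3 * J⌋₊ - ⌊o 0 * J⌋₊ := by rw [hQ, Nat.cast_sub l12]
  have hQl : (o 3 - o 0) * J - 1 ≤ Q := by rw [hQr]; linarith [f1.2, f2.2, f1.1, f2.1]
  have hQu : (Q : ℝ) ≤ (o 3 - o 0) * J + 1 := by rw [hQr]; linarith [f1.2, f2.2, f1.1, f2.1]
  have hMl : mb * J - 1 ≤ MB := by
    rw [hMB]
    exact (flo (mul_nonneg (by linarith) hJ0)).2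
  have hMu : (MB : ℝ) ≤ mb * J := by
    rw [hMB]
    exact (flo (mul_nonneg (by linarith) hJ0)).1
  have hCJ : η₀ * J ≤ X * J := mulJ hηX
  have hW0J : W₀ ≤ X * J := j2.trans hCJ
  have hKr40 : 0 ≤ 40 * ((K : ℝ) * r) := by positivity
  have h22 : 0 ≤ 22 * (C₁ : ℝ) := by positivity
  have hxu : (x : ℝ) ≤ X * J := by
    rw [hx, ← hX]
    exact (flo (mul_nonneg hX0.le hJ0)).1
  have hC1u : (C₁ : ℝ) * (x + 1) ≤ C₁ * X * J + C₁ := by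
    have h4 := mul_le_mul_of_nonneg_left hxu hC₁0
    linarith
  have hsmJ : C' * X * J ≤ δ * (o 3 - o 0) * J := mulJ hsm.le
  have hC'aJ := mulJ hC'a
  have hδQl : δ * (o 3 - o 0) * J - 1 ≤ δ * Q := by
    have h4 := mul_le_mul_of_nonneg_left hQl δ0.le
    linarith
  have hδ0Q : δ * Q ≤ δ₀ * Q := mul_le_mul_of_nonneg_right δδ₀ (Nat.cast_nonneg _)
  have hKXJ : 0 ≤ 16 * (K * r) * X * J := mul_nonneg hKrX hJ0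
  have hC₁XJ : 0 ≤ C₁ * X * J := by positivity
  have hCXJ : 0 ≤ X * J := by positivity
  have c1 : Q₀ ≤ Q := by
    have h4 : (Q₀ : ℝ) ≤ Q := by
      have h5 := mulJ hη12
      rw [hW₀] at j2
      linarith
    exact_mod_cast h4
  have c2 : (C₁ : ℝ) * (x + 1) ≤ δ₀ * Q := by
    rw [hW₀] at hW0J
    linarith
  have c3 : ⌊o 0 * J⌋₊ + 2 * Q ≤ J := by
    have h4 : ((⌊o 0 * J⌋₊ + 2 * Q : ℕ) : ℝ) ≤ J := by
      push_cast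
      have h5 := mulJ h1J
      rw [hW₀] at j2
      linarith [f1.1]
    exact_mod_cast h4
  have c6 : (J : ℝ) * Real.log 2 - δ₀ * Q ≤ CH (Pool.Agent.H49.Ent.cond F.p B₂ True) F.T
      (fun ω => (F.l ω, F.Z ω)) := by
    refine le_trans ?_ htf
    have h5 := mulJ hη12
    rw [hW₀] at j2
    have h6 : (o 3 - o 0) * J / 2 ≤ Q := by linarith
    have h7 := mul_le_mul_of_nonneg_left h6 δ0.le
    linarith
  obtain ⟨εQ, hεQ⟩ : ∃ k : ℕ, k = ⌈ε * Q⌉₊ := ⟨_, rfl⟩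
  have hεQ0 : 0 ≤ ε * (Q : ℝ) := by positivity
  have hεQl : ε * (Q : ℝ) ≤ εQ := by rw [hεQ]; exact Nat.le_ceil _
  have hεQu : (εQ : ℝ) ≤ ε * Q + 1 := by rw [hεQ]; exact (Nat.ceil_lt_add_one hεQ0).le
  have hεu : ε * (Q : ℝ) ≤ ε * (o 3 - o 0) * J + 1 := by
    have h4 := mul_le_mul_of_nonneg_left hQu hε.le
    linarith
  have hε2u : ε * (o 3 - o 0) * J ≤ (o 3 - o 0) * J / 2 := by
    have h4 := mul_le_mul_of_nonneg_right hε2 (mul_nonneg hQ12.le hJ0)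
    linarith
  obtain ⟨sm, hsm'⟩ : ∃ k : ℕ, k = 2 * x * K * r + C₀ + C₁ * (x + 1) := ⟨_, rfl⟩
  have hsmu : (sm : ℝ) ≤ 2 * (K * r) * X * J + (C₁ * X * J + C₁) + C₀ := by
    rw [hsm']
    push_cast
    have h4 := mul_le_mul_of_nonneg_left hxu hKr0
    linarith
  obtain ⟨p', hp'⟩ : ∃ p' : ℕ, p' = sr + MB - (sm + εQ) := ⟨_, rfl⟩
  have hδJ : δ * (o 3 - o 0) * J ≤ (o 3 - o 0) * J / 4 := by
    have h4 := mulJ hδQ4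
    linarith
  have hple : sm + εQ ≤ sr + MB := by
    have h4 : ((sm + εQ : ℕ) : ℝ) ≤ ((sr + MB : ℕ) : ℝ) := by
      push_cast
      have h5 := mulJ h12.le
      have h6 : (0 : ℝ) ≤ sr := Nat.cast_nonneg _
      rw [hW₀] at hW0J
      linarith
    exact_mod_cast h4
  have hpe : (p' : ℝ) + (sm + εQ) = sr + MB := by
    have : p' + (sm + εQ) = sr + MB := by rw [hp']; omega
    exact_mod_cast this
  obtain ⟨e', he'⟩ : ∃ e' : ℕ, e' = e + C₁ * (x + 1) + (p' - g₀ 0 (r + 1)) + MB + 1 := ⟨_, rfl⟩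
  have c8 : e + C₁ * (x + 1) + (p' - g₀ 0 (r + 1)) + 1 ≤ e' := by omega
  have c9 : (p' : ℝ) + (2 * x * K * r + C₀ : ℕ) + ε * Q ≤ sN (lv 0) J r r + MB := by
    rw [hsre]
    have h4 : ((2 * x * K * r + C₀ : ℕ) : ℝ) ≤ sm := by
      rw [hsm']
      exact_mod_cast Nat.le_add_right _ _
    linarith
  have c10 : ((e + C₁ * (x + 1) + (p' - g₀ 0 (r + 1)) : ℕ) : ℝ) + p' +
      (2 * x * K * r + C₀ + C₁ * (x + 1) : ℕ) + ε * Q ≤ e' + sN (lv 0) J r r := by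
    rw [hsre]
    have h4 : (e' : ℝ) = ((e + C₁ * (x + 1) + (p' - g₀ 0 (r + 1)) : ℕ) : ℝ) + MB + 1 := by
      rw [he']
      push_cast
      ring
    rw [h4, ← hsm']
    linarith
  obtain ⟨B₃, hB₃, hPB₃, hch, hla⟩ := hend (e' := e') (p' := p') Wd'
    c1 c2 c3 hP0 (him.mono (cond_nonneg F.isLaw.nonneg _ True) δδ₀) c6 c8 c9 c10
  -- the label
  obtain ⟨-, -, g2l, g2u⟩ := W.wg.wb.g_num (k := 3) (l := r + 1) (by omega) le_rfl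
  obtain ⟨-, -, g1l, g1u⟩ := W.wg.wb.g_num (k := 0) (l := r + 1) (by omega) le_rfl
  have hsrl : lv 0 (r + 1) * J - 1 ≤ sr := by
    rw [hsr]
    exact (flo (mul_nonneg (by linarith) hJ0)).2
  have hsru : (sr : ℝ) ≤ lv 0 (r + 1) * J := by
    rw [hsr]
    exact (flo (mul_nonneg (by linarith) hJ0)).1
  have hra : ⌊o 0 * J⌋₊ + Q + 1 ≤ ⌊a₂ * J⌋₊ := by
    refine Nat.le_floor ?_
    push_cast
    rw [hQr]
    linarith [f2.1]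
  have hea : e' ≤ ⌊e₂ * J⌋₊ := by
    refine Nat.le_floor ?_
    have h4 : ((p' - g₀ 0 (r + 1) : ℕ) : ℝ) ≤ mb * J + X * J := by
      have h6 : sr ≤ g₀ 0 (r + 1) + x := by
        have := Wd'.m1'
        rw [hsre] at this
        exact this
      have h7 : p' - g₀ 0 (r + 1) ≤ MB + x := by omega
      have h8 : ((p' - g₀ 0 (r + 1) : ℕ) : ℝ) ≤ ((MB + x : ℕ) : ℝ) := by exact_mod_cast h7
      push_cast at h8
      linarith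
    have h5 : (e : ℝ) ≤ (Eb + 2 * η₀) * J := by
      rw [he]
      exact (flo (mul_nonneg (by linarith) hJ0)).1
    rw [he']
    push_cast
    have h7 := mulJ hE
    have h8 := mulJ hζX
    rw [hW₀] at hW0J
    linarith
  have hD23 : D₂ ≤ D₃ := by rw [hD₃]; omega
  have hc1 : Set.InjOn c (Set.Iio (r + 1)) := hinj.mono fun l hl => by
    rw [Set.mem_Iio] at hl ⊢
    omega
  have hpos : ⌊o (fr4 1) * J⌋₊ = ⌊o 0 * J⌋₊ := rfl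
  rw [hpos] at hch hla
  have hT := (lab_tgt hla).rad hra
  rw [hD₃, hD₂] at hT
  have hC2 := hch.mono le_rfl (fun _ => hD23) hra hea
  rw [hD₃, hD₂] at hC2
  refine ⟨B, B₃, g₀, G, H, Ht, CL, Cp, _, _, _, _, _, p', hB, fun ω hω => hB₂ ω (hB₃ ω hω), ?_,
    hΞ, W.nw.clC, hC2, hT, ?_, ?_, fun s b => ?_⟩
  · have h4 := mul_le_mul_of_nonneg_left hPB₃ (mul_nonneg hK₁.le hK₂)
    linarith
  · have h5 := mulJ hlab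
    have h6 := hW0J
    rw [hW₀] at h6
    have h7 : (sm : ℝ) + εQ + p' = sr + MB := by linarith
    linarith
  · have h5 := mulJ hru
    have h6 : ((if r < r then ⌊b (fr4 0) r * J⌋₊ + (⌊o (fr4 2) * J⌋₊ - ⌊o (fr4 0) * J⌋₊) else
        g₀ (fr4 1) r : ℕ) : ℝ) = g₀ 0 r := by
      rw [if_neg (lt_irrefl r)]
      rfl
    obtain ⟨-, -, -, k1⟩ := W.wg.wb.g_num (k := 0) (l := r) (by omega) (by omega)
    refine h6.le.trans ?_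
    linarith
  · exact pd_ad hc1 (dep_ste (fun L l => W.nw.pH 0 L l)
      (dep_nW hc1 (W.nw.pH 1 s) (W.nw.pCL s))) b

end Pool.V1E
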