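import Pool.Agent.H73.D2.Tmx
import Pool.Agent.H92.STE.Se8

/-!
# The static end with the row label at one scale

`x10t_q`, `x10t_fy`: the label of the target over the frame and `u`, at one scale, from the slope
hypothesis with the row label and the velocity.
-/

set_option autoImplicit false

namespace Pool.V1E

open Finset Real MvPolynomial
open Pool.Agent.H49.Ent Pool.Agent.H32.Dense Pool.STK Pool.KA Pool.KSAT Pool.K2S Pool.PB Pool.S6C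
open Pool.GEN Pool.CHT Pool.CHX Pool.ISO Pool.D2R Pool.D2G30 Pool.END18 Pool.D2Con
open Pool.LBT (ThrOf)
open Pool.LEV (Law)
open Pool.NHN (NhNN nhN_cls)

/-- **The static end at one scale** for the target `N - P(p, u)`, with the row label. -/
theorem x10t_q (m r S₂ : ℕ) (hr : 1 ≤ r) (hS₂ : 1 ≤ S₂) (su s : ℝ) (hsu : 1 ≤ su) (hs : 1 < s) :
    ∃ D : ℕ, 1 ≤ D ∧ ∀ Dr : ℕ, D ≤ Dr → ∃ C : ℝ, 1 ≤ C ∧ ∀ Dw K' D' : ℕ, D ≤ Dw → 1 ≤ K' →
    (Dw + 1) * (Dw + 1) * ((Dw + 1) * (Dw + 1) + 1) ^ r ≤ K' → (Dw + 1) ^ (r + 4) ≤ D' →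
    ∀ del : ℝ, 0 < del → ∃ δ : ℝ, 0 < δ ∧ δ ≤ 1 / 4 ∧ ∃ X₀ : ℝ, 0 < X₀ ∧
    ∀ h X : ℝ, 0 < h → 10 * (C * h) < X → X ≤ X₀ →
    ∀ {S : PCl m} {P P₂ : List (Fin m) × Fin m → ℝ → ℝ → ℝ} {θ θ₂ : ℝ} {c : ℕ → Fin m}
    {Pt : ℝ → ℝ → ℝ} {R : ℕ → Prop} {N₁ N₂ : ℕ} {vw : ℕ → ℝ}
    {y A k₁ K Eb e₂ ε q t κ κ₁ K₂ K₃ a₂ es gu p₀ : ℝ} {Ξ : XiN m}
    {qf : ℕ → Fin r → ℕ},
    RecNy S P P₂ θ θ₂ c r Pt R S₂ N₁ N₂ vw su s y A k₁ K Eb e₂ ε q t → 3 * C * ε < h →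
    (∀ (J : ℕ) (i : Fin r), ⌊s * q * J⌋₊ + (⌊(t + q) * J⌋₊ - ⌊t * J⌋₊) ≤ qf J i) →
    0 < κ₁ → 0 < K₃ → κ₁ * K₃ ≤ κ → 0 ≤ K₂ →
    SlH S c r D Dw Dr N₁ N₂ R C (t + A * q) Eb (3 * ε * q) (h * q) (X * q) (s * q) Pt
      (fun k => t + vG y k₁ vw k * q)
      (fun k l => lvN P c (r + 1) Pt l (t + vG y k₁ vw k * q) (t + vG y k₁ vw k * q))
      (fun k l => bet P c l (t + A * q) (t + vG y k₁ vw k * q)) κ₁ K₃ Ξ →
    HImN S c r D Dw Dr K' D' N₁ N₂ R C (t + A * q) Eb (3 * ε * q) (h * q) (X * q) (s * q)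
      Pt (fun k => t + vG y k₁ vw k * q)
      (fun k l => lvN P c (r + 1) Pt l (t + vG y k₁ vw k * q) (t + vG y k₁ vw k * q))
      (fun k l => bet P c l (t + A * q) (t + vG y k₁ vw k * q)) κ qf δ K₂ Ξ →
    t + q < a₂ → Eb + 2 * (s * q) + q ≤ es → lvN P c (r + 1) Pt r t t + del * q ≤ gu →
    p₀ + del * q ≤ Pt t t + s * q →
    ∃ K₅ : ℝ, 0 ≤ K₅ ∧ StL S c r ((Dw + 1) * (Dw + 1) + r * (K' * ((Dw + 1) * (Dw + 1))) + D')
      a₂ t es gu p₀ K₅ Ξ := by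
  obtain ⟨D, hD, hw⟩ := wg_con m (r + 1) S₂ (by omega) hS₂
  refine ⟨D, hD, fun Dr hDr => ?_⟩
  obtain ⟨C, hC, hw⟩ := hw Dr hDr
  refine ⟨C, hC, fun Dw K' D' hDw hK' hDK hD1 del hdel => ?_⟩
  obtain ⟨δ, C', hδ, hδ4, hC', hx⟩ := x10t_con r Dw K' D' hr hK' hDK hD1
    (min (del / 4) (1 / 2)) (lt_min (by linarith) (by norm_num)) (min_le_right _ _)
  have hC0 : 0 < C := by linarith
  have hC'0 : 0 < C' := by linarith
  refine ⟨δ, hδ, hδ4, min (δ / (4 * C')) (min (del / (16 * C')) (min (1 / 4) ((s - 1) / 4))),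
    by have : 0 < s - 1 := by linarith
       positivity, fun h X hh hhX hX0 => ?_⟩
  have a1 : 4 * C' * X ≤ δ := by
    have := hX0.trans (min_le_left _ _)
    rw [le_div_iff₀ (by positivity)] at this
    linarith
  have a2 : 16 * C' * X ≤ del := by
    have := hX0.trans ((min_le_right _ _).trans (min_le_left _ _))
    rw [le_div_iff₀ (by positivity)] at this
    linarith
  have a3 : 4 * X ≤ 1 := by
    have := hX0.trans ((min_le_right _ _).trans ((min_le_right _ _).trans (min_le_left _ _)))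
    linarith
  have a4 : h ≤ C * h := le_mul_of_one_le_left hh.le hC
  have hXp : 0 < X := by
    have : 0 < C * h := by positivity
    linarith
  have a5 : X ≤ C' * X := le_mul_of_one_le_left hXp.le hC'
  intro S P P₂ θ θ₂ c Pt Rr N₁ N₂ vw y A k₁ K Eb e₂ ε q t κ κ₁ K₂ K₃ a₂ es gu p₀ Ξ qf R hε1
    hqf hκ₁ hK₃ hκκ hK₂ hSl hIm ha₂ hes hgu hp₀
  have hq := R.q0
  have hε0 := R.ε0
  have hkk := R.kk
  have hkK := R.kK
  obtain ⟨hy1, hyA, hsA⟩ := R.yA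
  have hsq : q < s * q := lt_mul_of_one_lt_left hq hs
  have hyq : 3 / 2 * q ≤ y * q := mul_le_mul_of_nonneg_right hy1 hq.le
  have hyAq : y * q + q / 2 ≤ A * q := by
    have := mul_le_mul_of_nonneg_right hyA hq.le
    linarith
  have hsAq : s * q + q ≤ A * q := by
    have := mul_le_mul_of_nonneg_right hsA hq.le
    linarith
  have hk1q : A * q + q ≤ k₁ * q := by
    have := mul_le_mul_of_nonneg_right hkk hq.le
    linarith
  have hKq : 2 * (A * q) + k₁ * q + 4 * q ≤ K * q := by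
    have := mul_le_mul_of_nonneg_right hkK hq.le
    linarith
  have hsy : s * q + y * q ≤ s * (y * q) + q := by
    have h1 : 0 ≤ (s - 1) * (y - 1) * q :=
      mul_nonneg (mul_nonneg (by linarith) (by linarith)) hq.le
    nlinarith
  have hsuy : su * q + y * q ≤ su * (y * q) + q := by
    have h1 : 0 ≤ (su - 1) * (y - 1) * q :=
      mul_nonneg (mul_nonneg (by linarith) (by linarith)) hq.le
    nlinarith
  have hεq : 0 ≤ ε * q := mul_nonneg hε0 hq.le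
  have hεq3 : 3 * (ε * q) ≤ h * q := by
    have h1 : ε ≤ C * ε := le_mul_of_one_le_left hε0 hC
    have := mul_le_mul_of_nonneg_right (show 3 * ε ≤ h by linarith) hq.le
    linarith
  have hhq : 0 < h * q := mul_pos hh hq
  have b1 : 4 * (C' * (X * q)) ≤ δ * q := by
    have := mul_le_mul_of_nonneg_right a1 hq.le
    linarith
  have b2 : 16 * (C' * (X * q)) ≤ del * q := by
    have := mul_le_mul_of_nonneg_right a2 hq.le
    linarith
  have b3 : 4 * (X * q) ≤ q := by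
    have := mul_le_mul_of_nonneg_right a3 hq.le
    linarith
  have b4 : h * q ≤ C * (h * q) := by
    have := mul_le_mul_of_nonneg_right a4 hq.le
    linarith
  have b5 : X * q ≤ C' * (X * q) := by
    have := mul_le_mul_of_nonneg_right a5 hq.le
    linarith
  have b6 : δ * q ≤ q / 4 := by
    have := mul_le_mul_of_nonneg_right hδ4 hq.le
    linarith
  have b7 : 10 * (C * (h * q)) < X * q := by
    have := mul_lt_mul_of_pos_right hhX hq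
    linarith
  have hdq : 0 < del * q := mul_pos hdel hq
  obtain ⟨o, ho⟩ : ∃ o : ℕ → ℝ, o = fun k => t + vG y k₁ vw k * q := ⟨_, rfl⟩
  have hoE : ∀ k, o k = t + vG y k₁ vw k * q := fun k => by rw [ho]
  have o2 : o 2 = t - k₁ * q := by rw [hoE 2]; simp [vG]; ring
  have o0 : o 0 = t := by rw [hoE 0]; simp [vG]
  have o3 : o 3 = t + q := by rw [hoE 3]; simp [vG]
  have o1 : o 1 = t + y * q := by rw [hoE 1]; simp [vG]
  obtain ⟨a, ha⟩ : ∃ a : ℝ, a = t + A * q := ⟨_, rfl⟩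
  have R1 : ∀ k ≤ N₁, WinD S P θ c (r + 1) Pt a (o k) S₂ Eb (3 * ε * q) Rr := fun k hk => by
    rw [hoE k, ha]
    exact R.win k hk
  have R2 : ∀ k ≤ N₁, o k ≤ Pt (o k) (o k) ∧ a ≤ Pt a (o k) := fun k hk => by
    rw [hoE k, ha]
    exact R.low k hk
  have R4 : ∀ k, N₁ < k → k ≤ N₂ → BalD S P θ c (r + 1) Pt a (o k) S₂ Eb := fun k hk hk' => by
    rw [hoE k, ha]
    exact R.bal k hk hk'
  have R3 := R.stp
  have R5 := R.beu
  have hot : ∀ k, t + vG y k₁ vw k * q = o k := fun k => by rw [ho]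
  have hot2 : (fun k => t + vG y k₁ vw k * q) = o := ho.symm
  rw [hot2] at hIm hSl
  simp only [hot, ← ha] at R3 R5 hIm hSl
  have hlr : ∀ x y : ℝ, lvN P c (r + 1) Pt (r + 1) x y = Pt x y := fun x y => by
    unfold lvN
    rw [if_neg (lt_irrefl (r + 1))]
  have hlb : ∀ l < r + 1, ∀ x y : ℝ, lvN P c (r + 1) Pt l x y = bet P c l x y := fun l hl x y => by
    unfold lvN
    rw [if_pos hl]
  have hoM : ∀ k ≤ N₁, t - k₁ * q ≤ o k ∧ o k ≤ t + A * q - q / 2 := by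
    intro k hk
    rcases Nat.lt_or_ge k 4 with h4 | h4
    · interval_cases k
      · rw [o0]; constructor <;> linarith
      · rw [o1]; constructor <;> linarith
      · rw [o2]; constructor <;> linarith
      · rw [o3]; constructor <;> linarith
    · have k1 := R.vwl k h4 hk
      have k2 := R.vw2 k h4 (hk.trans R.nn)
      rw [hoE k, vG_ge h4]
      have k3 := mul_le_mul_of_nonneg_right k1 hq.le
      have k4 := mul_le_mul_of_nonneg_right k2 hq.le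
      constructor <;> linarith
  have hoN : ∀ k ≤ N₂, o k ≤ t + A * q - q / 2 := by
    intro k hk
    rcases Nat.lt_or_ge k 4 with h4 | h4
    · interval_cases k
      · rw [o0]; linarith
      · rw [o1]; linarith
      · rw [o2]; linarith
      · rw [o3]; linarith
    · have k2 := R.vw2 k h4 hk
      rw [hoE k, vG_ge h4]
      have k4 := mul_le_mul_of_nonneg_right k2 hq.le
      linarith
  have hbM : ∀ k ≤ N₁, |o k - t| ≤ K * q := fun k hk => by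
    obtain ⟨k1, k2⟩ := hoM k hk
    rw [abs_le]
    constructor <;> linarith
  have hbx : ∀ k ≤ 3, |o k - t| ≤ K * q := by
    intro k hk
    rw [abs_le]
    interval_cases k
    · rw [o0]; constructor <;> linarith
    · rw [o1]; constructor <;> linarith
    · rw [o2]; constructor <;> linarith
    · rw [o3]; constructor <;> linarith
  have hax : |a - t| ≤ K * q := by
    rw [abs_le, ha]
    constructor <;> linarith
  have ht0 := R.t0
  have ht1 := R.t1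
  have hlt := R.lvr
  have e1 := abs_le.1 (hlt (o 3) (hbx 3 (by norm_num)))
  have e2 := abs_le.1 (hlt (o 1) (hbx 1 (by norm_num)))
  have e3 := abs_le.1 (R.lvu (o 3) (hbx 3 (by norm_num)))
  have e4 := abs_le.1 (R.lvu (o 1) (hbx 1 (by norm_num)))
  have hsuq : q ≤ su * q := le_mul_of_one_le_left hq.le hsu
  rw [o3] at e1 e3
  rw [o1] at e2 e4
  have hrt := R.room (r + 1) le_rfl (t + q) (by rw [← o3]; exact hbx 3 (by norm_num))
  have hr1 := R.room (r + 1) le_rfl t (by rw [sub_self, abs_zero]; linarith)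
  rw [hlr] at hrt hr1
  have hEb0 := R.Eb0
  have R20 := R2 0 (by omega)
  have R21 := R2 1 R.n1
  rw [o0] at R20
  rw [o1] at R21
  -- the windows
  obtain ⟨K₁, b, hK₁, hwg⟩ := hw (S := S) (P := P) (θ := θ) (c := c) (Pt := Pt) (R := Rr) (a := a)
    (Eb := Eb) (ε₀ := 3 * ε * q) (η₀ := h * q) (o := o) N₁ N₂ R.nn R.thr R.th0 R.tmh R.inj R.law
    hEb0 R1 R4
    (by
      have := mul_lt_mul_of_pos_right hε1 hq
      linarith)
    (fun k hk => by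
      obtain ⟨k1, k2⟩ := hoM k hk
      obtain ⟨k3, k4⟩ := R2 k hk
      rw [hlr]
      refine ⟨by linarith, by linarith, by linarith⟩)
    (fun k hk => by linarith [hoN k hk])
    (by linarith)
    (fun k hk l hl => by
      have := R.room l hl (o k) (hbM k hk)
      obtain ⟨k1, k2⟩ := hoM k hk
      linarith)
    (fun k hk l hl => by
      have k0 := R.room l hl.le a hax
      obtain ⟨k1, k2⟩ := hoM k hk
      rw [hlb l hl] at k0
      have k3 : bet P c l a (o k) ≤ bet P c l a a := (R.thr.law _).mono_w a (o k) a (by linarith)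
        (by linarith) le_rfl (by linarith)
      linarith)
  have hWg := wgc_of (b := b) (κ := κ) hK₁.le hK₃ ((mul_pos hκ₁ hK₃).le.trans hκκ) hκκ
    (hwg κ₁ hκ₁) hSl
  refine ⟨2 * ((K₁ * K₃) * K₂), by positivity, ?_⟩
  suffices hst : StL S c r ((Dw + 1) * (Dw + 1) + r * (K' * ((Dw + 1) * (Dw + 1))) + D') a₂ (o 0)
      es gu p₀ (2 * ((K₁ * K₃) * K₂)) Ξ by
    rw [o0] at hst
    exact hst
  refine hx (m := m) (S := S) (c := c) (Pt := Pt) (a := a)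
    (Eb := Eb) (ε₀ := 3 * ε * q) (η₀ := h * q) (χ := X * q) (mb := s * q) (κ := κ) (ζ := h * q)
    (e₂ := es) (K₁ := K₁ * K₃) (K₂ := K₂) (b := b)
    (o := o) (a₂ := a₂) (gu := gu) (p₀ := p₀) (qf := qf)
    R.n1 R.n3 hDw R.tmh R.inj R.rgh hC hhq hEb0 ?_ ?_ ?_ ?_ ?_ ?_ ?_ ?_ ?_ ?_ hhq.le
    ?_ ?_ ?_ ?_ ?_ ?_ ?_ ?_ ?_ ?_ ?_ ?_ ?_ ?_
    ((mul_pos hκ₁ hK₃).trans_le hκκ)
    (mul_pos hK₁ hK₃) hK₂ hWg hIm
  · rw [o2]; linarith
  · rw [o0]; linarith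
  · rw [hlr, o0]; linarith
  · rw [hlr, o1]; linarith
  · rw [o1]; linarith
  · linarith
  · intro hR
    have := R5 hR
    rw [o1]
    linarith
  · rw [o2, o0, o3]; linarith
  · rw [o0, o3]; linarith
  · rw [o1, o3]; linarith
  · linarith
  · intro k hk j hj
    have k0 := abs_le.1 (R.lv j hj (o k) (hbx k hk))
    rw [o0, abs_le]
    constructor <;> linarith
  · rw [o0, o3]
    linarith
  · rw [o1, o3]
    linarith
  · rw [hlr, hlr, o0, o3, abs_le]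
    constructor <;> linarith
  · rw [hlr, hlr, o0, o3, o1]
    linarith
  · rw [hlr, o0, o3]
    linarith
  · rw [o0, o3]
    linarith
  · rw [o3]; exact ha₂
  · linarith
  · rw [o0, o3]
    linarith
  · rw [o0]
    linarith
  · rw [hlr, o0, o3]
    have : min (del / 4) (1 / 2) * (t + q - t) ≤ del / 4 * q := by
      rw [add_sub_cancel_left]
      exact mul_le_mul_of_nonneg_right (min_le_left _ _) hq.le
    linarith
  · intro J i
    rw [o0, o3]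
    exact hqf J i

/-- **The static end at one scale** for the target `N - P(p, u)`, from the slope hypothesis, the time line and
the velocity. -/
theorem x10t_fy (m r S₂ CM : ℕ) (hr : 1 ≤ r) (hS₂ : 1 ≤ S₂) (su s : ℝ) (hsu : 1 ≤ su)
    (hs : 1 < s) :
    ∃ D : ℕ, 1 ≤ D ∧ ∀ Dr : ℕ, D ≤ Dr → ∃ C : ℝ, 1 ≤ C ∧ ∀ Dw : ℕ, D ≤ Dw →
    ∀ del : ℝ, 0 < del → ∃ δ C' : ℝ, 0 < δ ∧ δ ≤ 1 ∧ 1 ≤ C' ∧ ∃ X₀ : ℝ, 0 < X₀ ∧
    ∀ h X : ℝ, 0 < h → 10 * (C * h) < X → X ≤ X₀ →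
    ∀ {S : PCl m} {P P₂ : List (Fin m) × Fin m → ℝ → ℝ → ℝ} {θ θ₂ : ℝ} {c : ℕ → Fin m}
    {Pt : ℝ → ℝ → ℝ} {R : ℕ → Prop} {N₁ N₂ d : ℕ} {vw : ℕ → ℝ}
    {y A k₁ K Eb e₂ ε q t kk κ κ₁ K₂ K₃ a₂ es gu p₀ : ℝ} {Ξ : XiN m} {qf : ℕ → Fin r → ℕ}
    {nt : ℕ → ℝ} {P₁ P₃ : Fin r → ℝ} {oo : ℝ} {fr : ℕ → ℝ} {hT κT : ℝ}
    {aq : ℚ} {e₃ h₃ gn : ℝ},
    RecNy S P P₂ θ θ₂ c r Pt R S₂ N₁ N₂ vw su s y A k₁ K Eb e₂ ε q t → 3 * C * ε < h →
    (∀ (J : ℕ) (i : Fin r), ⌊s * q * J⌋₊ + (⌊(t + q) * J⌋₊ - ⌊t * J⌋₊) ≤ qf J i) →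
    0 < κ₁ → 0 < K₃ → κ₁ * K₃ ≤ κ → 0 < K₂ → d ≤ N₂ →
    SlH S c r D Dw Dr N₁ N₂ R C (t + A * q) Eb (3 * ε * q) (h * q) (X * q) (s * q) Pt
      (fun k => t + vG y k₁ vw k * q)
      (fun k l => lvN P c (r + 1) Pt l (t + vG y k₁ vw k * q) (t + vG y k₁ vw k * q))
      (fun k l => bet P c l (t + A * q) (t + vG y k₁ vw k * q)) κ₁ K₃ Ξ →
    VfN S c r D Dw Dr N₁ N₂ R C (t + A * q) Eb (3 * ε * q) (h * q) (X * q) (s * q) kk
      Pt (fun k => t + vG y k₁ vw k * q)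
      (fun k l => lvN P c (r + 1) Pt l (t + vG y k₁ vw k * q) (t + vG y k₁ vw k * q))
      (fun k l => bet P c l (t + A * q) (t + vG y k₁ vw k * q)) κ qf δ K₂ Ξ →
    TlW S c r nt P₁ P₃ (t + vG y k₁ vw 2 * q) (t + vG y k₁ vw 0 * q) (t + vG y k₁ vw 3 * q) oo fr
      hT κT →
    HnN r CM Eb (h * q) (X * q) (s * q) kk (h * q) δ C' (fun k => t + vG y k₁ vw k * q)
      (fun k l => lvN P c (r + 1) Pt l (t + vG y k₁ vw k * q) (t + vG y k₁ vw k * q)) qf nt P₁ P₃ oo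
      fr hT κT →
    NhNN r d P₂ c θ₂ C Eb (h * q) (h * q) (X * q) δ C' (fun k => t + vG y k₁ vw k * q)
      (fun k l => lvN P c (r + 1) Pt l (t + vG y k₁ vw k * q) (t + vG y k₁ vw k * q)) aq e₃ h₃ gn →
    t + q < a₂ → Eb + 2 * (s * q) + q ≤ es → lvN P c (r + 1) Pt r t t + del * q ≤ gu →
    p₀ + del * q ≤ Pt t t + s * q →
    ∃ K₅ : ℝ, 0 ≤ K₅ ∧ StL S c r (dSt r Dw) a₂ t es gu p₀ K₅ Ξ := by
  obtain ⟨D, hD, hx⟩ := x10t_q m r S₂ hr hS₂ su s hsu hs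
  refine ⟨D, hD, fun Dr hDr => ?_⟩
  obtain ⟨C, hC, hx⟩ := hx Dr hDr
  refine ⟨C, hC, fun Dw hDw del hdel => ?_⟩
  have hK' : 1 ≤ (Dw + 1) * (Dw + 1) * ((Dw + 1) * (Dw + 1) + 1) ^ r :=
    Nat.succ_le_of_lt (by positivity)
  obtain ⟨δ₁, hδ₁, hδ₁4, X₀, hX₀, hx⟩ := hx Dw _ _ hDw hK' le_rfl le_rfl del hdel
  obtain ⟨δ, C₁, hδ, hδ1, hC₁, hhi⟩ := him_nw Dw r _ _ CM hr hK' le_rfl le_rfl hδ₁
  obtain ⟨C₂, hC₂, hnh⟩ := nhN_cls Dw r hr
  refine ⟨δ, max C₁ C₂, hδ, hδ1, hC₁.trans (le_max_left _ _), X₀, hX₀, ?_⟩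
  intro h X hh hhX hX S P P₂ θ θ₂ c Pt R N₁ N₂ d vw y A k₁ K Eb e₂ ε q t kk κ κ₁ K₂ K₃ a₂ es gu
    p₀ Ξ qf nt P₁ P₃ oo fr hT κT aq e₃ h₃ gn Rc hε hqf hκ₁ hK₃ hκκ hK₂ hd hSl hVf hTl Hn Nh
  have hκ : 0 < κ := (mul_pos hκ₁ hK₃).trans_le hκκ
  have htm := fun (ψ : ℝ) (hψ : 0 < ψ) => tmh_cond Rc.tmh hψ
  exact hx h X hh hhX hX Rc hε hqf hκ₁ hK₃ hκκ hK₂.le hSl
    (hhi htm hTl (hnh hd Rc.thr₂ htm (Nh.mono (le_max_right _ _))) hVf hK₂ hκ.le le_rfl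
      (Hn.mono (le_max_left _ _)))

end Pool.V1E
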