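import Pool.Agent.H92.STE.Se1
import Pool.Agent.H92.ALT.Sl2
import Pool.Agent.H90.STV.Mxr

/-!
# The row chain of the static end

`stL_rwe`: the label of the static end for the polynomials of a family `Θ` is a row chain near the
second label of `Θ` in the direction `c r`.
-/

set_option autoImplicit false

namespace Pool.ALT

open Finset Real MvPolynomial
open Pool.Agent.H49.Ent Pool.Agent.H32.Dense Pool.STK Pool.KA Pool.KSAT Pool.K2S Pool.PB Pool.S6C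
open Pool.GEN Pool.CHT Pool.CHX Pool.ISO Pool.V1E
open Pool.PN18 (Fm2)
open Pool.STV90 (RwE BlR)

variable {m : ℕ}

/-- **The row chain of the static end**: on a part of each event of the class there are labels of the
family `Θ` near the closed label of a row chain in the direction `c r`, with any loss `x`. -/
theorem stL_rwe {S : PCl m} {c : ℕ → Fin m} {r D : ℕ} {a v e gu p K w : ℝ} {Θ : Fm2 m}
    (hΘ : ∀ (J : ℕ) (F : Fam m J) (A B : F.Ω → Prop) (V C : Type) (z : PtT F → V)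
      (z' : LnT F → V) (G₁ G₂ : V → MvPolynomial (Option (Fin m)) ℝ) (cc : LnT F → C),
      Sub B A → Θ J F A V C z z' G₁ G₂ cc → Θ J F B V C z z' G₁ G₂ cc)
    (h : StL S c r D a v e gu p K (XiF Θ w)) :
    Bas S (fun J F A => ∃ A₁ : F.Ω → Prop, Sub A₁ A ∧ Pe F.p A ≤ K * Pe F.p A₁ ∧
      ∃ (V C : Type) (z : PtT F → V) (z' : LnT F → V)
        (G₁ G₂ : V → MvPolynomial (Option (Fin m)) ℝ) (cc : LnT F → C),
        Θ J F A₁ V C z z' G₁ G₂ cc ∧ ∀ x : ℝ, RwE c r D a v e gu p x w J F A₁ V z' G₂) := by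
  refine Bas.mono 0 h ?_
  rintro J - F A ⟨B, B₁, g₀, G, H, Ht, CL, Cp, g, T, TH, Gc, Hc, P, h1, h2, h3,
    ⟨V, C, z, z', G₁, G₂, cc, hT, hCp⟩, h5, h6, h7, h8, h9, h10⟩
  refine ⟨B₁, fun ω hω => h1 ω (h2 ω hω), h3, V, C, z, z', G₁, G₂, cc,
    hΘ _ _ _ _ _ _ _ _ _ _ _ h2 hT, fun x => ⟨g, T, TH, Gc, Hc, P, h6, h7, h8, h9,
    fun ω hω => ?_⟩⟩
  have e1 : G₂ (z' (slam F ⌊w * J⌋₊ ω)) = CL (slam F ⌊v * J⌋₊ ω) := by
    rw [← hCp ω (h2 ω hω), h5 ω (h2 ω hω)]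
  rw [e1, h10, abs_zero]
  exact Real.rpow_nonneg (by norm_num) _

/-- The labels of the family `BlR`. -/
theorem stL_blr {S : PCl m} {c : ℕ → Fin m} {r D : ℕ} {a v e gu p K w : ℝ} {Θ : Fm2 m}
    (hΘ : ∀ (J : ℕ) (F : Fam m J) (A B : F.Ω → Prop) (V C : Type) (z : PtT F → V)
      (z' : LnT F → V) (G₁ G₂ : V → MvPolynomial (Option (Fin m)) ℝ) (cc : LnT F → C),
      Sub B A → Θ J F A V C z z' G₁ G₂ cc → Θ J F B V C z z' G₁ G₂ cc)
    (h : StL S c r D a v e gu p K (XiF Θ w)) (x : ℝ) :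
    Bas S (fun J F A => ∃ A₁ : F.Ω → Prop, Sub A₁ A ∧ Pe F.p A ≤ K * Pe F.p A₁ ∧
      ∃ (V : Type) (z : PtT F → V) (z' : LnT F → V)
        (G : V → MvPolynomial (Option (Fin m)) ℝ),
        BlR c r D a v e gu p x w (Fm2.lab Θ) J F A₁ V z z' G) := by
  refine Bas.mono 0 (stL_rwe hΘ h) ?_
  rintro J - F A ⟨A₁, h1, h2, V, C, z, z', G₁, G₂, cc, h3, h4⟩
  exact ⟨A₁, h1, h2, V, z, z', G₂, ⟨C, G₁, cc, h3⟩, h4 x⟩

end Pool.ALT
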